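import Pool.Agent.N162.GQ.Facts
import Pool.Agent.N162.GQ.Swept
import Pool.Agent.N145.SX.MFin
import Pool.Agent.R882.HYM
import Pool.Agent.T3h91.KP.Main

/-!
# Kobayashi's conjecture for the varieties dominated by products of several varieties and a curve

Let `V = X 0 × ... × X (k - 1) × C`, where the `X i` are smooth projective varieties over `ℂ` of
dimension `n i` and `C` is a smooth projective curve of any genus. Let `V ⇢ W` be a dominant rational
map of finite degree to a projective variety `W`, smooth or not. The map need not be related to the
product structure, and it need not be the quotient by a group. Let `W_i` be the image of `V` in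
`W × X 0 × ... × X (i - 1)`, and let `d i` be the degree over `W_i` of the image of `V` in `W_i × X i`;
for example `d 0` is the number of different points of `X 0` below a general fibre of `V ⇢ W`. The
product of the `d i` is at most the degree of `V ⇢ W`.

Suppose that for all `i` the canonical forms of `X i` separate `2 d i` general points
(`SeparatesPoints`), or `X i` is a complete intersection of large degree compared with `d i` in the
sense of `Factor` (`Pool/Agent/N162/GQ/Factor.lean`), or a curve of gonality greater than `2 d i`. For
example `X i` may be a smooth hypersurface of degree at least `n i + 1 + 2 d i` in projective space.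

**Theorem.** If `W` is Kobayashi hyperbolic, or if it contains no image of an elliptic curve, or, more
generally, if the union of the images of the elliptic curves in `W`, or the union of the entire curves in
`W`, is not Zariski dense, then `K_W` (on a resolution) is big, and moreover the canonical map of `W` is
generically finite, so `p_g(W) ≥ dim W + 1`.

So Kobayashi's conjecture is true for all smooth `W` of this kind: `K_W` is big, and by the base point
free theorem and the cone theorem it is ample, because `W` contains no rational curve; this last
standard step is not formalised here. No variety of this kind with trivial canonical bundle or with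
`κ < dim` is hyperbolic. There is no condition on the irregularity, and the map `V ⇢ W` is not given by
a group. Some condition on the `X i` is natural, as for abelian varieties `X i` and `C` and arbitrary `d i`
the `W` include all Kummer varieties.

## Proof

By `N145.SX.multi_all` of helper145 (`MP_97d78d_ag.ProductsOfVarieties`) `W` is of general type with
generically finite canonical map, or it is covered by a family of curves of genus at most one: there is
a curve of genus at most one over an algebraically closed field `Λ ⊇ ℂ` of transcendence degree
`dim W - 1` with a map to `W` which is dominant over `ℂ`. What is new is the specialisation: for each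
form `G` which does not vanish on `W` there are an elliptic curve `E` over `ℂ` and a nonconstant map
`E → W` whose image is not contained in `G = 0`. For that the curve over `Λ` is dominated by an elliptic
curve with a Weierstrass equation over `Λ`, the coordinates of the map are written as rational functions of
the coordinates `t`, `y` of this curve, with coefficients in a finitely generated ring `A ⊆ Λ`, and one
takes a homomorphism `A → ℂ` which does not annihilate the discriminant, the coefficients of the
denominators, a coefficient of the norm of `G` and a coefficient which shows that the map is not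
constant. (If the curve over `Λ` is rational one takes the double cover given by a fixed elliptic curve.)
The universal covering of `E`, by Weierstrass functions, gives entire curves in `W`, which are Zariski
dense in the image of `E` (helper95 and helper103), so the pseudodistance of Kobayashi vanishes for some
pairs of different points (helper239, helper185, helper72).
-/

set_option autoImplicit false
set_option linter.overlappingInstances false
set_option maxHeartbeats 4000000
set_option synthInstance.maxHeartbeats 400000

open FF Module Pool.Agent Pool.Agent.W602.GT
open Pool.Agent.W619.PQ (IsUniruled)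
open Pool.Agent.N162.GQ (Factor Img deg IsSweptOutByElliptic)
open Pool.Agent.Q103.SF (van ellForms entForms NoElliptic BrodyHyp KobayashiHyp)

namespace Pool.Agent.Results.MP_1e3e9c_ag.ProductsWithCurve

/-- **The canonical forms separate `r` general points.** `E` is the function field of a variety `X` of
dimension `n`, and `D` a rational frame of the tangent bundle. The embeddings `σ : E → Ω` are the
generic points of `X` with coordinates in the field `Ω`. At most `r` different such points impose
independent conditions on the canonical forms `ω` which are regular at all prime divisors: if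
`∑ c σ * σ (ω D) = 0` for all `ω` then all the coefficients `c σ` are zero. -/
def SeparatesPoints (E : Type) [Field E] [Algebra ℂ E] (n r : ℕ) : Prop :=
  ∀ D : Fin n → Derivation ℂ E E, LinearIndependent E D →
    ∀ (Ω : Type) [Field Ω] [Algebra ℂ Ω] [IsAlgClosed Ω] (A : Finset (E →ₐ[ℂ] Ω)), A.card ≤ r →
    ∀ c : (E →ₐ[ℂ] Ω) → Ω,
    (∀ ω : (Fin n → Derivation ℂ E E) → E, IsPluri 1 ω →
      (∀ P : Place ℂ E, Divisorial n P → RegAt P ω) → ∑ σ ∈ A, c σ * σ (ω D) = 0) →
    ∀ σ ∈ A, c σ = 0

/-- The image of the canonical map of the varieties with function field `L`, of dimension `w`, has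
dimension at least `j`: there are canonical forms, regular at all prime divisors, with `j`
algebraically independent ratios. -/
def CanonicalImageDimGe (L : Type) [Field L] [Algebra ℂ L] (w j : ℕ) : Prop :=
  ∃ ω : Fin (j + 1) → (Fin w → Derivation ℂ L L) → L,
    (∀ i, IsPluri 1 (ω i) ∧ ∀ P : Place ℂ L, Divisorial w P → RegAt P (ω i)) ∧
    ∃ D, ω 0 D ≠ 0 ∧ AlgebraicIndependent ℂ (fun i : Fin j => ω i.succ D / ω 0 D)

/-- **Kobayashi's conjecture for varieties dominated by the product of several varieties and a curve.**
Let `K` be the function field of the product `V` of the varieties with the function fields `F i`,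
`i < k`, of dimension `n i`, and of the curve with the function field `F k`, i.e. `K` is the compositum
and its transcendence degree is `∑ n i + 1`. Let `L ⊆ K` be the function field of a variety `W` such
that the extension is finite. Suppose that for all `i < k` the canonical forms of the `i`-th variety
separate `2 d i` general points, or it satisfies `Factor` for `2 d i + 1`, where `d i` is the degree over
`W_i` of the image of `V` in the product of `W_i` and this variety (`deg`).

**(1)** `W` is of general type if and only if its canonical map is generically finite, if and only if `W`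
is neither uniruled nor swept out by a family of elliptic curves. **(2)** Let `W` be projective with
generic point `x`. If the images of the elliptic curves in `W`, or the entire curves in `W`, are not
Zariski dense, in particular if there is no nonconstant map from an elliptic curve to `W`, in particular
if `W` is Brody hyperbolic or Kobayashi hyperbolic, then `W` is of general type and its canonical map is
generically finite. -/
theorem result {K : Type} [Field K] [Algebra ℂ K] [Algebra.EssFiniteType ℂ K] {k : ℕ}
    (n : Fin k → ℕ) (F : Fin (k + 1) → IntermediateField ℂ K)
    [∀ i, Algebra.EssFiniteType ℂ (F i)] [IsFF ℂ (F (Fin.last k))] (hF : ⨆ i, F i = ⊤)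
    (hn : ∀ i : Fin k, Algebra.trdeg ℂ (F i.castSucc) = n i)
    (hK : Algebra.trdeg ℂ K = (∑ i, n i + 1 : ℕ)) (L : Type) [Field L] [Algebra ℂ L]
    [Algebra L K] [IsScalarTower ℂ L K] [FiniteDimensional L K]
    (hX : ∀ i : Fin k, SeparatesPoints (F i.castSucc) (n i) (2 * deg F L i.castSucc) ∨
      Factor (F i.castSucc) (n i) (2 * deg F L i.castSucc + 1)) :
    [GeneralType ℂ L (∑ i, n i + 1), CanonicalImageDimGe L (∑ i, n i + 1) (∑ i, n i + 1),
      ¬ IsUniruled ℂ L (∑ i, n i + 1) ∧ ¬ IsSweptOutByElliptic L (∑ i, n i)].TFAE ∧
    ∀ (M : ℕ) (x : Fin (M + 1) → L), coords ℂ x = ⊤ →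
      ellForms x ≠ van x ∨ entForms x ≠ van x ∨ NoElliptic x ∨ BrodyHyp x ∨ KobayashiHyp x →
      GeneralType ℂ L (∑ i, n i + 1) ∧
        CanonicalImageDimGe L (∑ i, n i + 1) (∑ i, n i + 1) := by
  choose x D hx hD using fun i : Fin k => Pool.Agent.Y172.exists_crd (hn i)
  have hL : Algebra.trdeg ℂ L = (∑ i, n i + 1 : ℕ) := Pool.Agent.Y184.NT.trdeg_below (K := K) hK
  have hess : Algebra.EssFiniteType ℂ L := Pool.Agent.TH466.QG.ess_below (K := K)
  have h := N145.SX.multi_all (L := L) hF hn hK hx
    (g := fun i => 2 * deg F L i.castSucc + 1)
    (fun i => by
      rcases hX i with h1 | h1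
      · exact N145.SX.sepX_of' (hx i) (hD i) fun Ω _ _ _ A hA c hc =>
          h1 (D i) (N145.SX.dual_indep (hD i)) Ω A hA c hc
      · exact N162.GQ.sep_factor N162.GQ.fGON h1 _ (x i) (hx i))
    (fun i => by
      rw [N162.GQ.deg_eq]
      exact Nat.lt_succ_self _)
  obtain ⟨-, h2, -⟩ := h
  have h12 : CanonicalImageDimGe L (∑ i, n i + 1) (∑ i, n i + 1) →
      GeneralType ℂ L (∑ i, n i + 1) := by
    rintro ⟨ω, hω, hD⟩
    exact ⟨hL, 1, one_pos, ω, fun j => (hω j).1, fun P hP j => (hω j).2 P hP, hD⟩
  have h21 : GeneralType ℂ L (∑ i, n i + 1) →
      CanonicalImageDimGe L (∑ i, n i + 1) (∑ i, n i + 1) := fun h3 =>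
    (h2.out 0 1).1 (T3h91.KP.kod_of_gt h3)
  have h23 : CanonicalImageDimGe L (∑ i, n i + 1) (∑ i, n i + 1) ↔
      ¬ N145.SX.Cov1 L (∑ i, n i) := h2.out 1 2
  have hcov : ¬ CanonicalImageDimGe L (∑ i, n i + 1) (∑ i, n i + 1) →
      N145.SX.Cov1 L (∑ i, n i) := by
    intro h3
    by_contra h4
    exact h3 (h23.2 h4)
  refine ⟨?_, ?_⟩
  · tfae_have 1 → 2 := h21
    tfae_have 2 → 1 := h12
    tfae_have 2 → 3 := fun h3 => ⟨R882.HY.not_uniruled_of_gt hL (h12 h3),
      fun h4 => h23.1 h3 (N162.GQ.cov_of_swept h4)⟩
    tfae_have 3 → 2 := by
      rintro ⟨h3, h4⟩
      by_contra h5
      exact h4 (N162.GQ.swept_of_cov hL (hcov h5) h3)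
    tfae_finish
  · intro M y hy h3
    have h4 : CanonicalImageDimGe L (∑ i, n i + 1) (∑ i, n i + 1) := by
      by_contra h5
      have h6 := hcov h5
      rcases h3 with h3 | h3 | h3 | h3 | h3
      · exact h3 (T3h91.KP.ellForms_eq hL h6 hy)
      · exact h3 (T3h91.KP.entForms_eq hL h6 hy)
      · exact T3h91.KP.not_noElliptic hL h6 hy h3
      · exact T3h91.KP.not_brody hL h6 hy h3
      · exact T3h91.KP.not_kobayashi hL h6 hy h3
    exact ⟨h12 h4, h4⟩

end Pool.Agent.Results.MP_1e3e9c_ag.ProductsWithCurve
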